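import Pool.Agent.Lib.MP_293cc0_an.L.Defs

/-!
# MP_293cc0_an, L-regime, module Trans (100 lines, pure combinatorics)

`transversal`: `W a`, `a < p`, sets with `w` elements, `bad a b ⊆ W a × W b` for `a < b < p` with `p² |bad a b| ≤ w²` (`w > 0`). The number of choice functions (`Fintype.piFinset` over `Fin p`) is `w ^ p`,
the number of those with `(q a, q b) ∈ bad a b` is `|bad a b| w ^ (p - 2)`; the sum over the pairs `a < b` is `≤ (p (p - 1) / 2) (w² / p²) w ^ (p - 2) < w ^ p`.
(For the count: `q` with `q a = x`, `q b = y` prescribed: `piFinset` of the family `Function.update (Function.update W a {x}) b {y}`, `Fintype.card_piFinset`, `Finset.prod_update_of_mem`.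
Or induction on `p` with weights.)
-/

set_option autoImplicit false

namespace Pool.Agent.Lib.MP_293cc0_an.L

open Finset

/-- the choice functions with two prescribed values -/
theorem trans_card {p w : ℕ} (W : Fin p → Finset ℕ) (hW : ∀ a, (W a).card = w)
    {a b : Fin p} (hab : a ≠ b) (x y : ℕ) :
    ((Fintype.piFinset W).filter fun q => q a = x ∧ q b = y).card ≤ w ^ (p - 2) := by
  classical
  have h1 : ((Fintype.piFinset W).filter fun q => q a = x ∧ q b = y) ⊆
      Fintype.piFinset (Function.update (Function.update W a {x}) b {y}) := by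
    intro q hq
    rw [Finset.mem_filter, Fintype.mem_piFinset] at hq
    rw [Fintype.mem_piFinset]
    intro c
    by_cases hc : c = b
    · subst hc
      rw [Function.update_self, Finset.mem_singleton]
      exact hq.2.2
    · rw [Function.update_of_ne hc]
      by_cases hc' : c = a
      · subst hc'
        rw [Function.update_self, Finset.mem_singleton]
        exact hq.2.1
      · rw [Function.update_of_ne hc']
        exact hq.1 c
  refine (Finset.card_le_card h1).trans ?_
  rw [Fintype.card_piFinset]
  have h2 : ∏ i, (Function.update (Function.update W a {x}) b {y} i).card =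
      ∏ i : Fin p, if i = a ∨ i = b then 1 else w := by
    refine Finset.prod_congr rfl fun c _ => ?_
    by_cases hc : c = b
    · subst hc
      rw [Function.update_self, Finset.card_singleton, if_pos (Or.inr rfl)]
    · rw [Function.update_of_ne hc]
      by_cases hc' : c = a
      · subst hc'
        rw [Function.update_self, Finset.card_singleton, if_pos (Or.inl rfl)]
      · rw [Function.update_of_ne hc', hW, if_neg (not_or.2 ⟨hc', hc⟩)]
  rw [h2, Finset.prod_ite, Finset.prod_const_one, one_mul, Finset.prod_const]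
  have h3 : (Finset.univ.filter fun i : Fin p => ¬(i = a ∨ i = b)) =
      Finset.univ \ {a, b} := by
    ext i
    simp
  rw [h3, Finset.card_sdiff_of_subset (Finset.subset_univ _), Finset.card_univ, Fintype.card_fin,
    Finset.card_pair hab]

theorem transversal {p w : ℕ} (hw : 0 < w) (W : ℕ → Finset ℕ) (hW : ∀ a < p, (W a).card = w)
    (bad : ℕ → ℕ → Finset (ℕ × ℕ)) (hb : ∀ a b, a < b → b < p → p ^ 2 * (bad a b).card ≤ w ^ 2) :
    ∃ q : ℕ → ℕ, (∀ a < p, q a ∈ W a) ∧ ∀ a b, a < b → b < p → (q a, q b) ∉ bad a b := by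
  classical
  by_contra hno
  have hall : ∀ q ∈ Fintype.piFinset (fun a : Fin p => W a.1), ∃ r : Fin p × Fin p, r.1 < r.2 ∧
      (q r.1, q r.2) ∈ bad r.1.1 r.2.1 := by
    intro q hq
    by_contra hq2
    push Not at hq2
    apply hno
    refine ⟨fun a => if h : a < p then q ⟨a, h⟩ else 0, fun a ha => ?_, fun a b hab hbp => ?_⟩
    · simp only [dif_pos ha]
      exact Fintype.mem_piFinset.1 hq ⟨a, ha⟩
    · simp only [dif_pos (lt_trans hab hbp), dif_pos hbp]
      exact hq2 (⟨a, lt_trans hab hbp⟩, ⟨b, hbp⟩) hab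
  set P := (Finset.univ : Finset (Fin p × Fin p)).filter fun r => r.1 < r.2 with hP
  have h1 : (Fintype.piFinset fun a : Fin p => W a.1) ⊆ P.biUnion fun r =>
      (bad r.1.1 r.2.1).biUnion fun z => (Fintype.piFinset fun a : Fin p => W a.1).filter
        fun q => q r.1 = z.1 ∧ q r.2 = z.2 := by
    intro q hq
    obtain ⟨r, hr1, hr2⟩ := hall q hq
    rw [Finset.mem_biUnion]
    refine ⟨r, Finset.mem_filter.2 ⟨Finset.mem_univ _, hr1⟩, ?_⟩
    rw [Finset.mem_biUnion]
    exact ⟨_, hr2, Finset.mem_filter.2 ⟨hq, rfl, rfl⟩⟩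
  have h2 : w ^ p ≤ ∑ r ∈ P, (bad r.1.1 r.2.1).card * w ^ (p - 2) := by
    have h3 : (Fintype.piFinset fun a : Fin p => W a.1).card = w ^ p := by
      rw [Fintype.card_piFinset, Finset.prod_congr rfl fun a _ => hW a.1 a.2, Finset.prod_const,
        Finset.card_univ, Fintype.card_fin]
    rw [← h3]
    refine (Finset.card_le_card h1).trans (Finset.card_biUnion_le.trans
      (Finset.sum_le_sum fun r hr => ?_))
    refine Finset.card_biUnion_le.trans ?_
    rw [← smul_eq_mul, ← Finset.sum_const]
    exact Finset.sum_le_sum fun z _ => trans_card _ (fun a => hW a.1 a.2)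
      (ne_of_lt (Finset.mem_filter.1 hr).2) _ _
  -- there is a pair
  have hp : 2 ≤ p := by
    by_contra hp
    have h4 : P = ∅ := by
      rw [hP, Finset.filter_eq_empty_iff]
      intro r _ hr
      have h5 := r.1.2
      have h6 := r.2.2
      have h7 : r.1.1 < r.2.1 := hr
      omega
    rw [h4, Finset.sum_empty] at h2
    exact absurd h2 (not_le.2 (pow_pos hw p))
  have h5 : p ^ 2 * w ^ p ≤ P.card * w ^ p := by
    calc p ^ 2 * w ^ p ≤ p ^ 2 * ∑ r ∈ P, (bad r.1.1 r.2.1).card * w ^ (p - 2) :=
          Nat.mul_le_mul_left _ h2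
      _ = ∑ r ∈ P, (p ^ 2 * (bad r.1.1 r.2.1).card) * w ^ (p - 2) := by
          rw [Finset.mul_sum]
          exact Finset.sum_congr rfl fun r _ => (mul_assoc _ _ _).symm
      _ ≤ ∑ _r ∈ P, w ^ p := by
          refine Finset.sum_le_sum fun r hr => ?_
          refine (Nat.mul_le_mul_right _ (hb _ _ (Finset.mem_filter.1 hr).2 r.2.2)).trans ?_
          rw [← pow_add, Nat.add_sub_cancel' hp]
      _ = P.card * w ^ p := by rw [Finset.sum_const, smul_eq_mul]
  have h6 : P.card < p ^ 2 := by
    have h7 : P ⊂ (Finset.univ : Finset (Fin p × Fin p)) := by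
      rw [Finset.ssubset_univ_iff]
      intro h8
      have h9 : ((⟨0, by omega⟩, ⟨0, by omega⟩) : Fin p × Fin p) ∈ P := by
        rw [h8]
        exact Finset.mem_univ _
      exact lt_irrefl _ (Finset.mem_filter.1 h9).2
    have h8 := Finset.card_lt_card h7
    rw [Finset.card_univ, Fintype.card_prod, Fintype.card_fin, ← sq] at h8
    exact h8
  exact absurd h5 (not_le.2 (Nat.mul_lt_mul_of_pos_right h6 (pow_pos hw p)))

end Pool.Agent.Lib.MP_293cc0_an.L
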